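import Pool.Agent.Lib.MP_a4c586_co.AnyAction

set_option autoImplicit false

/-!
# K_{t,t}-free graphs with an elementary abelian 2-group of automorphisms
-/

namespace Pool.Agent.Results.MP_a4c586_co.TwoGroupOrbits

open Pool.Agent.Lib.MP_a4c586_co

/-- Let m = 2^k and t at most 2 m, let G be a graph on n vertices without a copy of the complete
bipartite graph with both sides of size t, and let E be a finite group of exponent two which acts
on the vertices by automorphisms of G, with r orbits. Then the m-th power of the number of edges
of G is at most m r n^(2 m - 1). -/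
theorem result {V E : Type*} [Fintype V] [Fintype E] [CommGroup E] [MulAction E V]
    (G : SimpleGraph V) [DecidableRel G.Adj] (k t : ℕ) (ht : t ≤ 2 ^ (k + 1))
    (hG : (completeBipartiteGraph (Fin t) (Fin t)).Free G)
    (hE : ∀ g : E, g * g = 1)
    (haut : ∀ (g : E) (x y : V), G.Adj x y → G.Adj (g • x) (g • y)) :
    G.edgeFinset.card ^ (2 ^ k) ≤ 2 ^ k * Nat.card (MulAction.orbitRel.Quotient E V) *
      Fintype.card V ^ (2 * 2 ^ k - 1) := by
  classical
  exact AnyAction.edge_bound G k t ht hG hE haut

end Pool.Agent.Results.MP_a4c586_co.TwoGroupOrbits
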